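import Pool.Agent.R542.Base
import Pool.Agent.NPC.Dec

/-!
# Graphs can be decoded in polynomial time
-/

set_option autoImplicit false

namespace Pool.Agent.NPC.R542.GI

open Pool.Agent.H692R2 SimpleGraph

/-- the entries of a list of rows -/
def mEnt (M : List (List Bool)) (i j : ℕ) : Bool :=
  ((M.getD i []).getD j false && (M.getD j []).getD i false) && !decide (i = j)

theorem mEnt_symm {M : List (List Bool)} {i j : ℕ} (h : mEnt M i j = true) :
    mEnt M j i = true := by
  unfold mEnt at *
  simp only [Bool.and_eq_true, Bool.not_eq_true', decide_eq_false_iff_not] at *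
  exact ⟨⟨h.1.2, h.1.1⟩, fun e => h.2 e.symm⟩

/-- the graph with a given list of rows -/
def ofM (M : List (List Bool)) : FinGraph :=
  ⟨M.length, { Adj := fun i j => mEnt M i j = true
               symm := ⟨fun _ _ h => mEnt_symm h⟩
               loopless := ⟨fun i h => by simp [mEnt] at h⟩ }⟩

theorem ofM_matrix (G : FinGraph) : ofM G.matrix = G := by
  apply FinGraph.matrix_injective
  have h1 : G.matrix = (List.range G.n).map (fun i => (List.range G.n).map
      (fun j => adjB G i j)) :=
    FinGraph.matrix_eq G.n (adjB G) G.graph (fun i j => (adjB_iff G i j).symm)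
  have h2 : (ofM G.matrix).matrix = (List.range G.matrix.length).map (fun i =>
      (List.range G.matrix.length).map (fun j => mEnt G.matrix i j)) :=
    FinGraph.matrix_eq G.matrix.length (mEnt G.matrix) (ofM G.matrix).graph
      (fun i j => Iff.rfl)
  rw [h2, matrix_length]
  conv_rhs => rw [h1]
  refine List.map_congr_left fun i hi => List.map_congr_left fun j hj => ?_
  rw [List.mem_range] at hi hj
  change ((adjB G i j && adjB G j i) && !decide (i = j)) = adjB G i j
  rw [adjB_symm G j i hj hi, Bool.and_self]
  by_cases h : i = j
  · subst h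
    rw [adjB_self G i hi]
    rfl
  · simp [h]

theorem poly_mEnt {α : Type} [TEnc α] {M : α → List (List Bool)} {i j : α → ℕ} (hM : Poly M)
    (hi : Poly i) (hj : Poly j) : Poly (fun a => mEnt (M a) (i a) (j a)) := by
  have e1 : Poly (fun a => ((M a).getD (i a) []).getD (j a) false) :=
    Poly.getD (Poly.getD hM hi (Poly.const [])) hj (Poly.const false)
  have e2 : Poly (fun a => ((M a).getD (j a) []).getD (i a) false) :=
    Poly.getD (Poly.getD hM hj (Poly.const [])) hi (Poly.const false)
  exact Poly.and (Poly.and e1 e2) (Poly.not (Poly.decide_eq hi hj))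

theorem poly_ofM : Poly ofM := by
  refine poly_finGraph (N := fun M : List (List Bool) => M.length) (b := fun M i j => mEnt M i j)
    (UPoly.length Poly.id) ?_ ?_
  · exact poly_mEnt (Poly.fst (Poly.fst Poly.id)) (Poly.snd (Poly.fst Poly.id))
      (Poly.snd Poly.id)
  · intro M i j
    exact Iff.rfl

/-- the decoder of graphs -/
noncomputable def decG (M : List (List Bool)) : Option FinGraph :=
  if (ofM M).matrix = M then some (ofM M) else none

theorem poly_decG : Poly decG := by
  have e1 : Poly (fun M : List (List Bool) => (ofM M).matrix) :=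
    Poly.comp (g := fun G : FinGraph => G.matrix) poly_matrix poly_ofM
  exact Poly.ite (Poly.decide_eq e1 Poly.id) (Poly.some poly_ofM) (Poly.const none)

noncomputable instance : TDec FinGraph :=
  TDec.of FinGraph.matrix decG (fun _ => rfl)
    (fun G => by unfold decG; rw [ofM_matrix, if_pos rfl])
    (fun M G h => by
      unfold decG at h
      split_ifs at h with h1
      cases h
      exact h1) poly_decG

end Pool.Agent.NPC.R542.GI
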